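import Pool.Agent.helper52.WP.SpecL

/-!
# Project wp: (MP_af9036_an): module LPB (local facts about the normalised differentials)
-/

set_option autoImplicit false

open Complex Metric Set Filter Topology MeasureTheory
open V3S (UF)
open WP

noncomputable section

namespace WPL

theorem LPB (hPIN : PIN_stmt) (hADH : ADH_stmt) (hTDE : V3.TDE_stmt) : LPB_stmt := by
  intro n C D hC hS hL
  obtain ⟨A, hA, hgood⟩ := hS.good
  obtain ⟨hfar, hclosed, -, -, -, -⟩ := hPIN n C D hC hS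
  have hO : IsOpen (Pin D)ᶜ := hclosed.isOpen_compl
  have hreg : ∀ x, x ∉ Pin D → ∃ r > (0 : ℝ), ∀ᶠ m in UF, DifferentiableOn ℂ (D m).B (ball x r) ∧
      ∀ y ∈ ball x r, y ∉ (D m).Pt ∧ (D m).zz y ∉ (D m).PP := by
    intro x hx
    obtain ⟨r, hr, hev⟩ := hfar x hx
    refine ⟨r, hr, ?_⟩
    filter_upwards [hev] with m hm
    obtain ⟨-, -, hB, -⟩ := hADH n C (A m) (D m) (hgood m)
    have h0 : ∀ y ∈ ball x r, y ∉ (D m).Pt := by
      intro y hy hP
      rw [mem_ball, dist_eq_norm] at hy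
      exact absurd (hm y hP) (not_le.2 hy)
    have h1 : ∀ y ∈ ball x r, (D m).zz y ∉ (D m).PP := by
      intro y hy hP
      obtain ⟨i, j, hj, hz⟩ := hP
      have hsg : (D m).sg ≠ 0 := by
        have h2 := (hgood m).rho
        change (((D m).ρ : ℝ) : ℂ) ≠ 0
        exact Complex.ofReal_ne_zero.2 h2.ne'
      have h3 : (D m).w + (D m).sg * y = (D m).w + (D m).sg * (D m).p i j := hz
      have h4 : y = (D m).p i j := mul_left_cancel₀ hsg (add_left_cancel h3)
      exact h0 y hy ⟨i, j, by omega, h4⟩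
    exact ⟨fun y hy => (hB y (h1 y hy)).differentiableWithinAt, fun y hy => ⟨h0 y hy, h1 y hy⟩⟩
  refine ⟨hreg, ?_⟩
  intro K hK hKO
  have h6 : ∀ x ∈ (Pin D)ᶜ, V3.EvHol (hyperfilter ℕ) (fun m => (D m).B) x := by
    intro x hx
    obtain ⟨r, hr, hev⟩ := hreg x hx
    refine ⟨r, hr, ?_⟩
    have hev2 : ∀ᶠ m in ((hyperfilter ℕ : Ultrafilter ℕ) : Filter ℕ),
        DifferentiableOn ℂ (D m).B (ball x r) := by
      have h7 : ∀ᶠ m in UF, DifferentiableOn ℂ (D m).B (ball x r) := hev.mono fun m hm => hm.1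
      exact h7
    exact hev2
  have hconv : TendstoLocallyUniformlyOn (fun m => (D m).B) (Bin D) (hyperfilter ℕ : Ultrafilter ℕ)
      (Pin D)ᶜ := by
    refine (tendstoLocallyUniformlyOn_iff_forall_isCompact hO).2 ?_
    intro K' hK'O hK'
    exact hL.conv K' hK' hK'O
  have h8 := (hTDE (hyperfilter ℕ) (fun m => (D m).B) (Bin D) (Pin D)ᶜ hO h6 hconv).2.1
  exact (tendstoLocallyUniformlyOn_iff_forall_isCompact hO).1 h8 K hKO hK

end WPL
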