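import Pool.Agent.helper52.WP.SpecA

set_option autoImplicit false

open Complex Metric Set Filter Topology MeasureTheory
open V3S (UF)
open WP

noncomputable section

namespace WPA

theorem RIG_bd (hKO2 : V3.KO2_stmt) (r : ℝ) (hr0 : 0 < r) (hr1 : r < 1) : ∃ C : ℝ, ∀ F : ℂ → ℂ,
    DifferentiableOn ℂ F (ball 0 1) → InjOn F (ball 0 1) → ‖F 0‖ ≤ 1 → ‖deriv F 0 - 1‖ ≤ 1 / 10 →
    ∀ y ∈ closedBall (0 : ℂ) (1 - r), ‖F y‖ ≤ C := by
  obtain ⟨C, hC, hK⟩ := hKO2 r hr0 hr1
  refine ⟨1 + 2 * C, ?_⟩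
  intro F hd hi h0 h1 y hy
  have hd0 : DifferentiableAt ℂ F 0 := hd.differentiableAt (ball_mem_nhds 0 one_pos)
  have hn1 : ‖deriv F 0‖ ≤ 2 := by
    have : deriv F 0 = (deriv F 0 - 1) + 1 := by ring
    rw [this]
    refine (norm_add_le _ _).trans ?_
    rw [norm_one]
    linarith
  have hne : deriv F 0 ≠ 0 := by
    intro h
    rw [h, zero_sub, norm_neg, norm_one] at h1
    norm_num at h1
  have hG := hK (fun z => (F z - F 0) / deriv F 0) ?_ ?_ ?_ ?_ y hy
  · have e : F y = F 0 + deriv F 0 * ((F y - F 0) / deriv F 0) := by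
      field_simp
      ring
    rw [e]
    refine (norm_add_le _ _).trans ?_
    rw [norm_mul]
    have := mul_le_mul hn1 hG (norm_nonneg _) (by norm_num)
    linarith
  · exact (hd.sub_const _).div_const _
  · intro a ha b hb hab
    apply hi ha hb
    have hab' : (F a - F 0) / deriv F 0 = (F b - F 0) / deriv F 0 := hab
    have h2 := congrArg (fun t => t * deriv F 0 + F 0) hab'
    simp only [div_mul_cancel₀ _ hne, sub_add_cancel] at h2
    exact h2
  · simp
  · rw [deriv_div_const, deriv_sub_const]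
    exact div_self hne

theorem RIG (hKO2 : V3.KO2_stmt) (hTMO : V3.TMO_stmt) (hTDE : V3.TDE_stmt) (hTHU : V3.THU_stmt) : RIG_stmt := by
  intro δ hδ0 hδ1 η hη0 hη1
  by_contra hcon
  push Not at hcon
  have hcon' : ∀ m : ℕ, ∃ F : ℂ → ℂ, DifferentiableOn ℂ F (ball 0 1) ∧ InjOn F (ball 0 1) ∧ ‖F 0‖ ≤ 1 / ((m : ℝ) + 1) ∧
      ‖deriv F 0 - 1‖ ≤ δ / 10 ∧ (∀ x ∈ ball (0 : ℂ) 1, F x = x → 1 + δ ≤ ‖deriv F x‖) ∧
      ∃ x ∈ ball (0 : ℂ) (1 - η), ‖F x - x‖ ≤ η → F x ≠ x → η < ‖deriv F x - 1‖ := by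
    intro m
    obtain ⟨F, h1, h2, h3, h4, h5, h6⟩ := hcon (1 / ((m : ℝ) + 1)) (by positivity)
    exact ⟨F, h1, h2, h3, h4, h5, h6⟩
  choose F hd hi h0 h1 hfix x hx hbad using hcon'
  let U : Ultrafilter ℕ := Filter.hyperfilter ℕ
  have hU : (U : Filter ℕ) ≤ atTop := Nat.hyperfilter_le_atTop
  have hlb : ∀ x ∈ ball (0 : ℂ) 1, ∃ r > (0 : ℝ), ∃ C : ℝ, ∀ᶠ m in (U : Filter ℕ), DifferentiableOn ℂ (F m) (ball x r) ∧
      ∀ y ∈ ball x r, ‖F m y‖ ≤ C := by
    intro x hx
    rw [mem_ball_zero_iff] at hx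
    have hx0 := norm_nonneg x
    obtain ⟨C, hC⟩ := RIG_bd hKO2 ((1 - ‖x‖) / 2) (by linarith) (by linarith)
    refine ⟨(1 - ‖x‖) / 2, by linarith, C, Filter.Eventually.of_forall fun m => ?_⟩
    have hin : ∀ y ∈ ball x ((1 - ‖x‖) / 2), ‖y‖ < 1 - (1 - ‖x‖) / 2 := by
      intro y hy
      rw [mem_ball, dist_eq_norm] at hy
      have : y = (y - x) + x := by ring
      rw [this]
      refine lt_of_le_of_lt (norm_add_le _ _) ?_
      linarith
    refine ⟨(hd m).mono ?_, ?_⟩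
    · intro y hy
      rw [mem_ball_zero_iff]
      have := hin y hy
      linarith
    · intro y hy
      refine hC (F m) (hd m) (hi m) ((h0 m).trans ?_) ((h1 m).trans (by linarith)) y ?_
      · rw [div_le_one (by positivity)]
        have : (0 : ℝ) ≤ m := Nat.cast_nonneg m
        linarith
      · rw [mem_closedBall_zero_iff]
        exact (hin y hy).le
  obtain ⟨Fi, hFd, hFt⟩ := hTMO U F (ball 0 1) isOpen_ball hlb
  have hev : ∀ x ∈ ball (0 : ℂ) 1, V3.EvHol U F x := by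
    intro x hx
    obtain ⟨r, hr, C, hC⟩ := hlb x hx
    exact ⟨r, hr, hC.mono fun m hm => hm.1⟩
  obtain ⟨-, hFt', -⟩ := hTDE U F Fi (ball 0 1) isOpen_ball hev hFt
  have hmem0 : (0 : ℂ) ∈ ball (0 : ℂ) 1 := mem_ball_self one_pos
  have hF0 : Fi 0 = 0 := by
    have ht : Tendsto (fun m => F m 0) (U : Filter ℕ) (𝓝 (Fi 0)) := hFt.tendsto_at hmem0
    have ht2 : Tendsto (fun m => F m 0) (U : Filter ℕ) (𝓝 0) := by
      have h3 : Tendsto (fun m : ℕ => 1 / ((m : ℝ) + 1)) (U : Filter ℕ) (𝓝 0) :=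
        tendsto_one_div_add_atTop_nhds_zero_nat.mono_left hU
      exact squeeze_zero_norm h0 h3
    exact tendsto_nhds_unique ht ht2
  have hF1 : ‖deriv Fi 0 - 1‖ ≤ δ / 10 := by
    have ht : Tendsto (fun m => deriv (F m) 0) (U : Filter ℕ) (𝓝 (deriv Fi 0)) := hFt'.tendsto_at hmem0
    have ht2 : Tendsto (fun m => ‖deriv (F m) 0 - 1‖) (U : Filter ℕ) (𝓝 ‖deriv Fi 0 - 1‖) := (ht.sub_const 1).norm
    exact le_of_tendsto ht2 (Filter.Eventually.of_forall h1)
  have hF1' : ‖deriv Fi 0‖ ≤ 1 + δ / 10 := by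
    have : deriv Fi 0 = (deriv Fi 0 - 1) + 1 := by ring
    rw [this]
    refine (norm_add_le _ _).trans ?_
    rw [norm_one]
    linarith
  have hDc : DifferentiableOn ℂ (deriv Fi) (ball 0 1) := hFd.deriv isOpen_ball
  have hid : ∀ x ∈ ball (0 : ℂ) 1, Fi x = x := by
    by_contra hne
    push Not at hne
    obtain ⟨x0, hx0, hx0'⟩ := hne
    have hcont : ContinuousAt (deriv Fi) 0 := (hDc.differentiableAt (ball_mem_nhds 0 one_pos)).continuousAt
    obtain ⟨e1, he1, hb1⟩ := Metric.continuousAt_iff.1 hcont (δ / 10) (by positivity)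
    have hlu := Metric.tendstoLocallyUniformlyOn_iff.1 hFt' (δ / 10) (by positivity) 0 hmem0
    obtain ⟨t, ht, hlt⟩ := hlu
    have ht' : t ∈ 𝓝 (0 : ℂ) := by
      rwa [isOpen_ball.nhdsWithin_eq hmem0] at ht
    obtain ⟨e2, he2, hb2⟩ := Metric.mem_nhds_iff.1 ht'
    have hz := hTHU U (fun m z => F m z - z) (fun z => Fi z - z) 0 1 one_pos
      (Filter.Eventually.of_forall fun m => (hd m).sub differentiableOn_id) ?_ (by rw [hF0]; ring)
      ⟨x0, hx0, sub_ne_zero.2 hx0'⟩ (min (min e1 e2) 1) (by positivity)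
    · obtain ⟨m, hm1, z, hz, hz0⟩ := (hlt.and hz).exists
      rw [mem_ball_zero_iff] at hz
      have hz1 : ‖z‖ < e1 := lt_of_lt_of_le hz ((min_le_left _ _).trans (min_le_left _ _))
      have hz2 : ‖z‖ < e2 := lt_of_lt_of_le hz ((min_le_left _ _).trans (min_le_right _ _))
      have hz3 : ‖z‖ < 1 := lt_of_lt_of_le hz (min_le_right _ _)
      have h5 := hfix m z (by rwa [mem_ball_zero_iff]) (sub_eq_zero.1 hz0)
      have h6 := hm1 z (hb2 (by rwa [mem_ball_zero_iff]))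
      have h7 := hb1 (x := z) (by rwa [dist_zero_right])
      rw [dist_eq_norm] at h6 h7
      have e3 : deriv (F m) z = (deriv Fi z - deriv Fi 0) + deriv Fi 0 - (deriv Fi z - deriv (F m) z) := by ring
      have t1 := norm_sub_le ((deriv Fi z - deriv Fi 0) + deriv Fi 0) (deriv Fi z - deriv (F m) z)
      rw [← e3] at t1
      have t2 := norm_add_le (deriv Fi z - deriv Fi 0) (deriv Fi 0)
      linarith
    · refine hFt.sub ?_
      exact (Metric.tendstoUniformlyOn_iff.2 fun ε hε => Filter.Eventually.of_forall fun m x _ => by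
        simpa using hε).tendstoLocallyUniformlyOn
  have hder : ∀ x ∈ ball (0 : ℂ) 1, deriv Fi x = 1 := by
    intro x hx
    have : deriv Fi x = deriv (fun z : ℂ => z) x := by
      apply Filter.EventuallyEq.deriv_eq
      filter_upwards [isOpen_ball.mem_nhds hx] with z hz
      exact hid z hz
    rw [this]
    exact deriv_id x
  have hcomp : IsCompact (closedBall (0 : ℂ) (1 - η)) := isCompact_closedBall _ _
  have hsub : closedBall (0 : ℂ) (1 - η) ⊆ ball 0 1 := closedBall_subset_ball (by linarith)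
  have hu1 := (tendstoLocallyUniformlyOn_iff_forall_isCompact isOpen_ball).1 hFt _ hsub hcomp
  have hu2 := (tendstoLocallyUniformlyOn_iff_forall_isCompact isOpen_ball).1 hFt' _ hsub hcomp
  have h5 := Metric.tendstoUniformlyOn_iff.1 hu1 η hη0
  have h6 := Metric.tendstoUniformlyOn_iff.1 hu2 (min η δ) (lt_min hη0 hδ0)
  obtain ⟨m, hm1, hm2⟩ := (h5.and h6).exists
  have hxm : x m ∈ closedBall (0 : ℂ) (1 - η) := ball_subset_closedBall (hx m)
  have k1 := hm1 (x m) hxm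
  have k2 := hm2 (x m) hxm
  rw [hid _ (hsub hxm), dist_eq_norm, norm_sub_rev] at k1
  rw [hder _ (hsub hxm), dist_eq_norm, norm_sub_rev] at k2
  have k3 : F m (x m) ≠ x m := by
    intro h
    have k4 := hfix m (x m) (hsub hxm) h
    have k5 : ‖deriv (F m) (x m)‖ ≤ ‖deriv (F m) (x m) - 1‖ + 1 := by
      have t1 := norm_add_le (deriv (F m) (x m) - 1) 1
      rw [sub_add_cancel, norm_one] at t1
      exact t1
    have k6 := min_le_right η δ
    linarith
  have k7 := hbad m k1.le k3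
  have k8 := min_le_left η δ
  linarith

end WPA
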